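import Pool.Agent.H96.WG5

namespace Pool.Agent.Results.MP_8ec86e_an.Criterion
open MeasureTheory Filter Topology unitInterval

/-- Real `L₂([0,1])`. -/
abbrev L1 : Type := Lp ℝ 2 (volume : Measure I)

/-- Real `L₂([0,1]²)`. -/
abbrev L2 : Type := Lp ℝ 2 (volume : Measure (I × I))

/-- The bilinear dictionary: products `u(x) v(y)` with `‖u‖ = ‖v‖ = 1`. -/
def Pi2 : Set L2 := {g | ∃ u v : L1, ‖u‖ = 1 ∧ ‖v‖ = 1 ∧ ∀ᵐ x, g x = u x.1 * v x.2}

/-- A realization of the weak greedy algorithm: residuals `f 0, f 1, ...`, chosen elements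
`φ m`; step number `m + 1` uses the weakness parameter `t m`. -/
def Run (t : ℕ → ℝ) (f φ : ℕ → L2) : Prop :=
  ∀ m, φ m ∈ Pi2 ∧ t m * (⨆ g : Pi2, |inner ℝ (f m) (g : L2)|) ≤ |inner ℝ (f m) (φ m)| ∧
    f (m + 1) = f m - inner ℝ (f m) (φ m) • φ m

/-- All realizations converge, for every starting function. -/
def Converges (t : ℕ → ℝ) : Prop :=
  ∀ f φ : ℕ → L2, Run t f φ → Tendsto (fun m => ‖f m‖) atTop (𝓝 0)

/-- The class `𝒱`, for the sequence whose `k`-th term is `x (k - 1)`. -/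
def InV (x : ℕ → ℝ) : Prop :=
  ∃ q : ℕ → ℕ, q 0 = 0 ∧ StrictMono q ∧
    Summable (fun s => (2 : ℝ) ^ (s + 1) / ((q (s + 1) : ℝ) - q s)) ∧
    Summable (fun s => ((2 : ℝ) ^ (s + 1))⁻¹ * ∑ k ∈ Finset.range (q (s + 1)), x k ^ 2)

open Pool.Agent.H96.WG in
theorem result (t : ℕ → ℝ) (h0 : ∀ k, 0 ≤ t k) (h1 : ∀ k, t k ≤ 1) : Converges t ↔ ¬ InV t := by
  have hD : Pi2 = DD := by
    ext g
    constructor
    · rintro ⟨u, v, hu, hv, h⟩
      refine ⟨u, v, hu, hv, Lp.ext ?_⟩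
      filter_upwards [h, tens_ae u v] with x a b
      rw [a, b]
    · rintro ⟨u, v, hu, hv, rfl⟩
      exact ⟨u, v, hu, hv, tens_ae u v⟩
  obtain ⟨e, he⟩ := exists_on
  constructor
  · intro hc hV
    obtain ⟨f, φ, k1, k2⟩ := counter tens_T e he t h0 h1 (P_of_V t h0 h1 hV)
    have := hc f φ fun m => ⟨hD ▸ (k1 m).1, ?_, (k1 m).2.2⟩
    · have h := (this.pow 2).eventually (gt_mem_nhds (show (0 : ℝ) ^ 2 < 1 / 2 by norm_num))
      obtain ⟨n, hn⟩ := h.exists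
      exact absurd (k2 n) (not_le.2 hn)
    · rw [Real.mul_iSup_of_nonneg (h0 m)]
      refine Real.iSup_le (fun g => ?_) (abs_nonneg _)
      obtain ⟨u, v, hu, hv, h⟩ : (g : L2) ∈ DD := hD ▸ g.2
      rw [h]; exact (k1 m).2.1 u v hu hv
  · intro hV f φ hr
    refine suff DD DD_norm DD_dense t h1 (fun h => hV (V_of_P t h0 h)) f φ
      (fun n => hD ▸ (hr n).1) (fun n g hg => le_trans ?_ (hr n).2.1) fun n => (hr n).2.2
    refine mul_le_mul_of_nonneg_left (le_ciSup (f := fun g : Pi2 => |inner ℝ (f n) (g : L2)|)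
      ⟨‖f n‖, ?_⟩ ⟨g, hD ▸ hg⟩) (h0 n)
    rintro _ ⟨g, rfl⟩
    have := abs_real_inner_le_norm (f n) (g : L2)
    rwa [DD_norm g (hD ▸ g.2), mul_one] at this

end Pool.Agent.Results.MP_8ec86e_an.Criterion
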